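import Pool.Agent.helper49.WhFinal

/-!
Typical degrees in the graph of Whitehead moves on unlabelled cubic graphs tend to infinity.

The definitions (`CubicGraph`, `Isomorphic`, `WhiteheadMove`, `IsoClass`, `Gamma`, `deg`) are in
`Pool.Agent.helper49.WhDefs`. The proof is a first-moment argument in the pairing model: if an
isomorphism class has few neighbours then, by the Cauchy-Schwarz inequality, many pairs of moves
on a representative `τ` have isomorphic results, i.e. `s₂ σ s₁` commutes with the pairing `τ` for
some fibre-preserving permutation `σ` of the edge-ends and transpositions `s₁, s₂`; the number of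
such configurations is bounded by a union bound over `σ`, `s₁`, `s₂`. The stronger statement for
every sequence `d n = o(√n)` is `Pool.Agent.helper49.Wh.main`.
-/

open Filter Topology Pool.Agent.helper49.Wh

namespace Pool.Agent.Results.MP_992c04_co.TypicalDegree

/-- There is a sequence `d n → ∞` such that, as `n → ∞` through the even numbers, the proportion
of isomorphism classes of `n`-vertex cubic graphs whose degree in `Γ^u_n` is at least `d n`
tends to one. -/
theorem result : ∃ d : ℕ → ℕ, Tendsto d atTop atTop ∧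
    Tendsto (fun m : ℕ =>
      (Nat.card {x : IsoClass (2 * m) // d (2 * m) ≤ deg x} : ℝ) /
        (Nat.card (IsoClass (2 * m)) : ℝ)) atTop (𝓝 1) := by
  refine ⟨fun n => Nat.sqrt (Nat.sqrt n), ?_, ?_⟩
  · have h : Tendsto Nat.sqrt atTop atTop := by
      refine tendsto_atTop_atTop.mpr (fun b => ⟨b * b, fun a ha => ?_⟩)
      exact Nat.le_sqrt.mpr ha
    exact h.comp h
  · refine main (fun n => Nat.sqrt (Nat.sqrt n)) ?_
    have hlim : Tendsto (fun n : ℕ => (√(√(n : ℝ)))⁻¹) atTop (𝓝 0) := by
      have h1 : Tendsto (fun n : ℕ => √(√(n : ℝ))) atTop atTop :=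
        Real.tendsto_sqrt_atTop.comp
          (Real.tendsto_sqrt_atTop.comp tendsto_natCast_atTop_atTop)
      exact h1.inv_tendsto_atTop
    refine squeeze_zero' (Eventually.of_forall fun n => by positivity) ?_ hlim
    filter_upwards [eventually_ge_atTop 1] with n hn
    have hn' : (0 : ℝ) < n := by exact_mod_cast hn
    have hs : 0 < √(n : ℝ) := Real.sqrt_pos.mpr hn'
    have hss : 0 < √(√(n : ℝ)) := Real.sqrt_pos.mpr hs
    have h1 : ((Nat.sqrt (Nat.sqrt n) : ℕ) : ℝ) ≤ √(√(n : ℝ)) := by
      refine (Real.nat_sqrt_le_real_sqrt (a := Nat.sqrt n)).trans ?_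
      exact Real.sqrt_le_sqrt Real.nat_sqrt_le_real_sqrt
    rw [div_le_iff₀ hs]
    have h2 : (√(√(n : ℝ)))⁻¹ * √(n : ℝ) = √(√(n : ℝ)) := by
      rw [inv_mul_eq_div, div_eq_iff hss.ne', Real.mul_self_sqrt hs.le]
    rw [h2]
    exact h1

end Pool.Agent.Results.MP_992c04_co.TypicalDegree
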